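import Pool.Agent.Lib.MP_a11aea_gt.H36Main

/-! A one-cusped hyperbolic 3-manifold whose canonical decomposition is a triangulation, with an
unknotting tunnel that is isotopic (even properly homotopic) to no edge and to no dual arc. -/

namespace Pool.Agent.Results.MP_a11aea_gt.TunnelNotEdgeNotDual

open Pool.Agent.Lib.MP_a11aea_gt

theorem result : ∃ (Γ : Subgroup SL2C) (v : Fin 2 → ℂ) (s : ℝ),
    IsOneCusped Γ v s ∧ IsCanonicalTriangulation (cuspOrbit Γ v) s ∧
    ∃ τ : C(unitInterval, Mbar Γ v s), IsTunnel (bdry Γ v s) τ ∧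
      ∀ u₁ u₂, EdgePair (cuspOrbit Γ v) u₁ u₂ ∨ DualPair (cuspOrbit Γ v) u₁ u₂ →
        ∀ η : C(unitInterval, core Γ v s), (η 0).1 ∈ horosphere s u₁ → (η 1).1 ∈ horosphere s u₂ →
          ¬ ProperHomotopic (bdry Γ v s) τ ((proj Γ v s).comp η) :=
  main

end Pool.Agent.Results.MP_a11aea_gt.TunnelNotEdgeNotDual
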